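import Pool.Agent.Lib.MP_0e7911_co_h94.Hecke

/-!
# Basic lemmas on the functional `Φ`
-/

set_option autoImplicit false

namespace Pool.Agent.Lib.MP_0e7911_co_h94

open MvPolynomial Finset

variable {R : Type*} [CommRing R]

theorem U0_pow_X_pow (k j : ℕ) (h : MvPolynomial ℕ R) :
    (U0 ^ k) (X 0 ^ j * io h) = if k ≤ j then X 0 ^ (j - k) * io h else 0 := by
  induction k generalizing j with
  | zero => simp
  | succ k ih =>
    rw [pow_succ, Module.End.mul_apply]
    cases j with
    | zero =>
      rw [pow_zero, one_mul, U0_io, map_zero, if_neg (by omega)]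
    | succ j =>
      rw [pow_succ', mul_assoc, U0_X_mul, ih]
      by_cases hkj : k ≤ j
      · rw [if_pos hkj, if_pos (by omega), Nat.succ_sub_succ]
      · rw [if_neg hkj, if_neg (by omega)]

theorem cf_X_pow_io (k j : ℕ) (h : MvPolynomial ℕ R) :
    cf k (X 0 ^ j * io h) = if j = k then h else 0 := by
  rw [cf, LinearMap.comp_apply, U0_pow_X_pow]
  by_cases hkj : k ≤ j
  · rw [if_pos hkj]
    change del 0 (X 0 ^ (j - k) * io h) = _
    rw [map_mul, map_pow, del_zero_io, del_X]
    simp only [lt_irrefl, if_false, if_true]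
    by_cases h2 : j = k
    · subst h2; simp
    · rw [if_neg h2, zero_pow (by omega), zero_mul]
  · rw [if_neg hkj, map_zero, if_neg (by omega)]

theorem sum_U0_pow (g : MvPolynomial ℕ R) (n : ℕ) :
    (∑ k ∈ range n, X 0 ^ k * io (cf k g)) + X 0 ^ n * (U0 ^ n) g = g := by
  induction n with
  | zero => simp
  | succ n ih =>
    rw [sum_range_succ]
    have h1 := X_mul_U0 ((U0 ^ n) g)
    have h2 : cf n g = del 0 ((U0 ^ n) g) := rfl
    rw [pow_succ' U0, Module.End.mul_apply, h2]
    calc _ = (∑ k ∈ range n, X 0 ^ k * io (cf k g)) +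
        X 0 ^ n * (X 0 * U0 ((U0 ^ n) g) + io (del 0 ((U0 ^ n) g))) := by ring
      _ = _ := by rw [h1, ih]

theorem sum_cf (g : MvPolynomial ℕ R) :
    ∑ k ∈ range (g.totalDegree + 1), X 0 ^ k * io (cf k g) = g := by
  have h := sum_U0_pow g (g.totalDegree + 1)
  have : (U0 ^ (g.totalDegree + 1)) g = 0 := by
    ext e
    rw [coeff_U0_pow, coeff_zero]
    apply coeff_eq_zero_of_totalDegree_lt
    have h1 : (Finsupp.single 0 (g.totalDegree + 1) + e : ℕ →₀ ℕ).degree =
        (g.totalDegree + 1) + e.degree := by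
      rw [map_add, Finsupp.degree_single]
    rw [← Finsupp.degree_apply, h1]
    omega
  rwa [this, mul_zero, add_zero] at h

/-- Two additive maps which agree on all `z_0^k ι(h)` are equal. -/
theorem add_ext {M : Type*} [AddCommMonoid M] (A B : MvPolynomial ℕ R →+ M)
    (h : ∀ (k : ℕ) (f : MvPolynomial ℕ R), A (X 0 ^ k * io f) = B (X 0 ^ k * io f))
    (g : MvPolynomial ℕ R) : A g = B g := by
  rw [← sum_cf g, map_sum, map_sum]
  exact sum_congr rfl fun k _ => h k _

theorem toF_X_pow_io (k : ℕ) (h : MvPolynomial ℕ R) :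
    toF (X 0 ^ k * io h) = Finsupp.single k h := by
  ext1 j
  change cf j (X 0 ^ k * io h) = _
  rw [cf_X_pow_io, Finsupp.single_apply]

variable (q t : R)

theorem Phi_nil (g : MvPolynomial ℕ R) : Phi q t [] g = coeff 0 g := by
  unfold Phi; rfl

theorem Phi_cons (b : ℕ) (bs : List ℕ) (k : ℕ) (h : MvPolynomial ℕ R) :
    Phi q t (b :: bs) (X 0 ^ k * io h) =
      if b ≤ k then Phi q t bs (h * PowerSeries.coeff (k - b) (Psi q t bs.length)) else 0 := by
  rw [Phi, LinearMap.comp_apply, toF_X_pow_io]
  rw [Finsupp.lsum_single]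
  by_cases hb : b ≤ k
  · rw [if_pos hb, if_pos hb, LinearMap.comp_apply, LinearMap.mulRight_apply]
  · rw [if_neg hb, if_neg hb, LinearMap.zero_apply]

/-! ### base change -/

variable {R' : Type*} [CommRing R']

theorem map_io (f : R →+* R') (g : MvPolynomial ℕ R) : map f (io g) = io (map f g) := by
  unfold io; rw [map_rename]

theorem map_geo (f : R →+* R') (a : MvPolynomial ℕ R) :
    PowerSeries.map (map f) (geo a) = geo (map f a) := by
  ext1 n
  simp [geo]

theorem map_Psi (f : R →+* R') (l : ℕ) :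
    PowerSeries.map (map f) (Psi q t l) = Psi (f q) (f t) l := by
  cases l with
  | zero => rw [Psi, Psi, map_one]
  | succ l =>
    rw [Psi, Psi, map_mul, map_prod, map_geo]
    congr 1
    · refine prod_congr rfl fun j _ => ?_
      simp only [map_mul, map_sub, map_one, map_geo, PowerSeries.map_C, PowerSeries.map_X, map_X,
        map_C]
    · rw [map_mul, map_C, map_X, map_mul]

theorem Phi_map (f : R →+* R') (b : List ℕ) (g : MvPolynomial ℕ R) :
    f (Phi q t b g) = Phi (f q) (f t) b (map f g) := by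
  induction b generalizing g with
  | nil => rw [Phi_nil, Phi_nil, coeff_map]
  | cons b bs ih =>
    have := add_ext (f.toAddMonoidHom.comp (Phi q t (b :: bs)).toAddMonoidHom)
      ((Phi (f q) (f t) (b :: bs)).toAddMonoidHom.comp (map f).toAddMonoidHom) ?_ g
    · exact this
    · intro k h
      change f (Phi q t (b :: bs) (X 0 ^ k * io h)) =
        Phi (f q) (f t) (b :: bs) (map f (X 0 ^ k * io h))
      have e1 : map f (X 0 ^ k * io h) = X 0 ^ k * io (map f h) := by
        rw [(map f).map_mul, (map f).map_pow, map_X, map_io]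
      rw [Phi_cons, e1, Phi_cons]
      by_cases hb : b ≤ k
      · rw [if_pos hb, if_pos hb, ih, (map f).map_mul, ← map_Psi, PowerSeries.coeff_map]
      · rw [if_neg hb, if_neg hb, map_zero]

end Pool.Agent.Lib.MP_0e7911_co_h94
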