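import Pool.Agent.Lib.MP_0e7911_co_h31.Kern
import Pool.Agent.Lib.MP_0e7911_co_h94.PhiLemmas

/-!
# The functional `Φ` in terms of the functional `L` and of the kernels `Q_e`
-/

set_option autoImplicit false

namespace Pool.Agent.Lib.MP_0e7911_co_h94

open Finset Pool.Agent.Lib.MP0e7911H38 Pool.Agent.Lib.MP0e7911H31

variable {K : Type*} [Field K] {m : ℕ}

/-- polynomials in the first `m` variables as elements of `LR K m` (the other variables go to
zero) -/
noncomputable def emb (K : Type*) [Field K] (m : ℕ) : MvPolynomial ℕ K →ₐ[K] LR K m :=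
  MvPolynomial.aeval fun j => if h : j < m then zz ⟨j, h⟩ else 0

theorem emb_X (j : ℕ) : emb K m (MvPolynomial.X j) = if h : j < m then zz ⟨j, h⟩ else 0 := by
  rw [emb, MvPolynomial.aeval_X]

theorem emb_X_zero : emb K (m + 1) (MvPolynomial.X 0) = zz 0 := by
  rw [emb_X, dif_pos (Nat.succ_pos m)]; rfl

theorem emb_io (f : MvPolynomial ℕ K) : emb K (m + 1) (io f) = up (emb K m f) := by
  have : (emb K (m + 1)).comp io = up.comp (emb K m) := by
    apply MvPolynomial.algHom_ext
    intro n
    simp only [AlgHom.comp_apply, io_X, emb_X]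
    by_cases h : n < m
    · rw [dif_pos (by omega), dif_pos h, up_zz]; rfl
    · rw [dif_neg (by omega), dif_neg h, map_zero]
  exact congrArg (fun φ => φ f) this

theorem sum_aT {M : Type*} [AddCommMonoid M] (m n : ℕ) (f : (Fin (m + 1) → ℕ) → M) :
    ∑ e ∈ Finset.Nat.antidiagonalTuple (m + 1) n, f e =
      ∑ p ∈ antidiagonal n, ∑ e' ∈ Finset.Nat.antidiagonalTuple m p.2,
        f (Fin.cons p.1 e' : Fin (m + 1) → ℕ) := by
  rw [Finset.sum_sigma']
  refine Finset.sum_bij' (fun e _ => ⟨(e 0, ∑ i, Fin.tail e i), Fin.tail e⟩)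
    (fun p _ => (Fin.cons p.1.1 p.2 : Fin (m + 1) → ℕ)) ?_ ?_ ?_ ?_ ?_
  · intro e he
    rw [Finset.Nat.mem_antidiagonalTuple, Fin.sum_univ_succ] at he
    rw [mem_sigma, HasAntidiagonal.mem_antidiagonal, Finset.Nat.mem_antidiagonalTuple]
    exact ⟨he, rfl⟩
  · rintro ⟨⟨a, k⟩, e'⟩ h
    rw [mem_sigma, HasAntidiagonal.mem_antidiagonal, Finset.Nat.mem_antidiagonalTuple] at h
    rw [Finset.Nat.mem_antidiagonalTuple, Fin.sum_univ_succ]
    simp only [Fin.cons_zero, Fin.cons_succ]
    rw [h.2]; exact h.1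
  · intro e _
    exact Fin.cons_self_tail e
  · rintro ⟨⟨a, k⟩, e'⟩ h
    rw [mem_sigma, HasAntidiagonal.mem_antidiagonal, Finset.Nat.mem_antidiagonalTuple] at h
    simp only [Fin.cons_zero, Fin.tail_cons]
    rw [h.2]
  · intro e _
    simp only [Fin.cons_self_tail]

/-- the term of degree `n` in `t` -/
noncomputable def Sn (q : K) (m : ℕ) (b : Fin (m + 1) → ℕ) (G : LR K (m + 1)) (n : ℕ) : K :=
  ∑ e ∈ Finset.Nat.antidiagonalTuple m n,
    Lf q (m + 1) (mo (fun k => -(b k : ℚ)) * G * dn (mo (-(nexp e))) * up (Qe q m e))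

theorem Sn_add (q : K) (b : Fin (m + 1) → ℕ) (G G' : LR K (m + 1)) (n : ℕ) :
    Sn q m b (G + G') n = Sn q m b G n + Sn q m b G' n := by
  rw [Sn, Sn, Sn, ← sum_add_distrib]
  refine sum_congr rfl fun e _ => ?_
  rw [← map_add]
  congr 1
  ring

theorem Sn_zero (q : K) (b : Fin (m + 1) → ℕ) (n : ℕ) : Sn q m b 0 n = 0 := by
  rw [Sn]
  refine sum_eq_zero fun e _ => ?_
  rw [mul_zero, zero_mul, zero_mul, map_zero]

theorem mo_neg_b (b : Fin (m + 2) → ℕ) :
    (mo (fun k => -(b k : ℚ)) : LR K (m + 2)) =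
      mo (Fin.cons (-(b 0 : ℚ)) 0 : Fin (m + 2) → ℚ) * up (mo (fun k => -(Fin.tail b k : ℚ))) := by
  rw [← mo_cons]
  congr 1
  funext k
  refine Fin.cases ?_ (fun j => ?_) k
  · simp
  · simp [Fin.tail]

theorem dn_mo_cons (e0 : ℕ) (e' : Fin m → ℕ) :
    (dn (mo (-(nexp (Fin.cons e0 e' : Fin (m + 1) → ℕ)))) : LR K (m + 2)) =
      mo (Fin.cons (-(e0 : ℚ)) 0 : Fin (m + 2) → ℚ) * up (dn (mo (-(nexp e')))) := by
  rw [dn_mo, dn_mo, ← mo_cons]
  congr 1
  have : (-(nexp (Fin.cons e0 e' : Fin (m + 1) → ℕ)) : Fin (m + 1) → ℚ) =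
      (Fin.cons (-(e0 : ℚ)) (-(nexp e')) : Fin (m + 1) → ℚ) := by
    funext k
    refine Fin.cases ?_ (fun j => ?_) k
    · simp [nexp]
    · simp [nexp]
  rw [this, ← Fin.cons_snoc_eq_snoc_cons]

theorem mo_cons_mul (a c : ℚ) :
    (mo (Fin.cons a 0 : Fin (m + 1) → ℚ) * mo (Fin.cons c 0 : Fin (m + 1) → ℚ) : LR K (m + 1)) =
      mo (Fin.cons (a + c) 0 : Fin (m + 1) → ℚ) := by
  rw [mo_mul]
  congr 1
  funext k
  refine Fin.cases ?_ (fun j => ?_) k <;> simp

/-- peeling of the first variable -/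
theorem Sn_succ (q : K) (b : Fin (m + 2) → ℕ) (k : ℕ) (G : LR K (m + 1)) (n : ℕ) :
    Sn q (m + 1) b (zz 0 ^ k * up G) n = ∑ p ∈ antidiagonal n,
      if b 0 + p.1 ≤ k then Sn q m (Fin.tail b) (G * Hc q (m + 1) (k - (b 0 + p.1)) *
        PowerSeries.coeff p.1 (Bser q m)) p.2 else 0 := by
  rw [Sn, sum_aT]
  refine sum_congr rfl fun p _ => ?_
  have key : ∀ e' : Fin m → ℕ,
      (mo (fun k => -(b k : ℚ)) * (zz 0 ^ k * up G) *
        dn (mo (-(nexp (Fin.cons p.1 e' : Fin (m + 1) → ℕ)))) *
        up (Qe q (m + 1) (Fin.cons p.1 e' : Fin (m + 1) → ℕ)) : LR K (m + 2)) =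
      mo (Fin.cons ((k : ℚ) - ((b 0 + p.1 : ℕ) : ℚ)) 0 : Fin (m + 2) → ℚ) *
        up (mo (fun k => -(Fin.tail b k : ℚ)) * G * dn (mo (-(nexp e'))) *
          (PowerSeries.coeff p.1 (Bser q m) * up (Qe q m e'))) := by
    intro e'
    have h1 : Qe q (m + 1) (Fin.cons p.1 e' : Fin (m + 1) → ℕ) =
        PowerSeries.coeff p.1 (Bser q m) * up (Qe q m e') := by
      rw [Qe, Fin.cons_zero, Fin.tail_cons]
    have h2 : ((k : ℚ) - ((b 0 + p.1 : ℕ) : ℚ)) = -(b 0 : ℚ) + (k : ℚ) + -(p.1 : ℚ) := by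
      push_cast; ring
    rw [h1, mo_neg_b, dn_mo_cons, zz_zero_pow, h2, ← mo_cons_mul, ← mo_cons_mul]
    simp only [map_mul]
    ring
  simp only [key, Lf_peel_nat]
  by_cases h : b 0 + p.1 ≤ k
  · simp only [if_pos h]
    rw [Sn]
    refine sum_congr rfl fun e' _ => ?_
    congr 1
    ring
  · simp only [if_neg h, sum_const_zero]

/-! ### the series `Ψ` -/

/-- `B(u) = 1/(1 - z_0 u) ∏_{0 < j ≤ m} (1 - q z_j u)/(1 - z_j u)` -/
noncomputable def Bps (q : K) (m : ℕ) : PowerSeries (MvPolynomial ℕ K) :=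
  geo (MvPolynomial.X 0) * ∏ j ∈ range m,
    (1 - PowerSeries.C (MvPolynomial.C q * MvPolynomial.X (j + 1)) * PowerSeries.X) *
      geo (MvPolynomial.X (j + 1))

theorem one_sub_mul_geo (a : MvPolynomial ℕ K) :
    (1 - PowerSeries.C a * PowerSeries.X) * geo a = 1 := one_sub_mul_Eg a

theorem rescale_geo (c a : MvPolynomial ℕ K) : PowerSeries.rescale c (geo a) = geo (c * a) := by
  ext1 n
  rw [PowerSeries.coeff_rescale, geo, geo, PowerSeries.coeff_mk, PowerSeries.coeff_mk, mul_pow]

theorem rescale_C_mul_X (c a : MvPolynomial ℕ K) :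
    PowerSeries.rescale c (PowerSeries.C a * PowerSeries.X) =
      PowerSeries.C (c * a) * PowerSeries.X := by
  ext1 n
  rw [PowerSeries.coeff_rescale, PowerSeries.coeff_C_mul, PowerSeries.coeff_C_mul,
    PowerSeries.coeff_X]
  by_cases h : n = 1
  · subst h; simp
  · simp [h]

theorem Psi_eq (q t : K) (m : ℕ) :
    Psi q t (m + 1) = Qs q (m + 1) * PowerSeries.rescale (MvPolynomial.C t) (Bps q m) := by
  rw [Psi, Bps, Qs, (PowerSeries.rescale (MvPolynomial.C t)).map_mul,
    map_prod (PowerSeries.rescale (MvPolynomial.C t)), rescale_geo]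
  have h1 : ∀ j ∈ range m, PowerSeries.rescale (MvPolynomial.C t)
      ((1 - PowerSeries.C (MvPolynomial.C q * MvPolynomial.X (j + 1)) * PowerSeries.X) *
      geo (MvPolynomial.X (j + 1))) =
      (1 - PowerSeries.C (MvPolynomial.C (q * t) * MvPolynomial.X (j + 1)) * PowerSeries.X) *
      geo (MvPolynomial.C t * MvPolynomial.X (j + 1) : MvPolynomial ℕ K) := by
    intro j _
    rw [map_mul, map_sub, map_one, rescale_geo, rescale_C_mul_X]
    congr 3
    congr 1
    rw [MvPolynomial.C_mul]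
    ring
  rw [prod_congr rfl h1]
  have h2 : ∏ j ∈ range (m + 1), (1 - PowerSeries.C (MvPolynomial.X j) * PowerSeries.X) *
      (1 - PowerSeries.C (MvPolynomial.C (q * t) * MvPolynomial.X j) * PowerSeries.X) *
      geo (MvPolynomial.C q * MvPolynomial.X j) * geo (MvPolynomial.C t * MvPolynomial.X j) =
      (∏ j ∈ range (m + 1), (1 - PowerSeries.C (MvPolynomial.X j) * PowerSeries.X) *
        geo (MvPolynomial.C q * MvPolynomial.X j)) *
      ∏ j ∈ range (m + 1), (1 - PowerSeries.C (MvPolynomial.C (q * t) * MvPolynomial.X j) *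
        PowerSeries.X) * geo (MvPolynomial.C t * MvPolynomial.X j : MvPolynomial ℕ K) := by
    rw [← prod_mul_distrib]
    refine prod_congr rfl fun j _ => ?_
    ring
  rw [h2, prod_range_succ' (fun j => (1 - PowerSeries.C (MvPolynomial.C (q * t) *
    MvPolynomial.X j) * PowerSeries.X) * geo (MvPolynomial.C t * MvPolynomial.X j : MvPolynomial ℕ K))]
  have h3 := one_sub_mul_geo (MvPolynomial.C (q * t) * MvPolynomial.X 0 : MvPolynomial ℕ K)
  linear_combination ((∏ j ∈ range (m + 1), (1 - PowerSeries.C (MvPolynomial.X j) * PowerSeries.X) *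
        geo (MvPolynomial.C q * MvPolynomial.X j)) *
      (∏ j ∈ range m, (1 - PowerSeries.C (MvPolynomial.C (q * t) * MvPolynomial.X (j + 1)) *
        PowerSeries.X) * geo (MvPolynomial.C t * MvPolynomial.X (j + 1) : MvPolynomial ℕ K)) *
      geo (MvPolynomial.C t * MvPolynomial.X 0)) * h3

theorem coeff_Psi (q t : K) (m M : ℕ) :
    PowerSeries.coeff M (Psi q t (m + 1)) = ∑ p ∈ antidiagonal M,
      MvPolynomial.C (t ^ p.1) * (PowerSeries.coeff p.2 (Qs q (m + 1)) *
        PowerSeries.coeff p.1 (Bps q m)) := by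
  rw [Psi_eq, mul_comm, PowerSeries.coeff_mul]
  refine sum_congr rfl fun p _ => ?_
  rw [PowerSeries.coeff_rescale, MvPolynomial.C_pow]
  ring

theorem map_emb_geo (m : ℕ) (a : MvPolynomial ℕ K) :
    PowerSeries.map (emb K m).toRingHom (geo a) = Eg (emb K m a) := by
  ext1 n
  rw [PowerSeries.coeff_map, geo, Eg, PowerSeries.coeff_mk, PowerSeries.coeff_mk]
  exact map_pow (emb K m) a n

theorem map_emb_C (m : ℕ) (a : MvPolynomial ℕ K) :
    PowerSeries.map (emb K m).toRingHom (PowerSeries.C a) = PowerSeries.C (emb K m a) := by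
  rw [PowerSeries.map_C]; rfl

theorem emb_C_mul (m : ℕ) (a : K) (g : MvPolynomial ℕ K) :
    emb K m (MvPolynomial.C a * g) = a • emb K m g := by
  rw [← MvPolynomial.smul_eq_C_mul, map_smul]

theorem emb_Qs (q : K) (m M : ℕ) :
    emb K m (PowerSeries.coeff M (Qs q m)) = Hc q m M := by
  have : PowerSeries.map (emb K m).toRingHom (Qs q m) = Hser q m := by
    rw [Qs, Hser, map_prod, ← Fin.prod_univ_eq_prod_range (fun j => PowerSeries.map
      (emb K m).toRingHom ((1 - PowerSeries.C (MvPolynomial.X j) * PowerSeries.X) *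
      geo (MvPolynomial.C q * MvPolynomial.X j)))]
    refine prod_congr rfl fun j _ => ?_
    rw [map_mul, map_sub, map_one, map_mul, map_emb_C, PowerSeries.map_X, map_emb_geo, Eh_eq,
      emb_C_mul, emb_X, dif_pos j.2]
  rw [Hc, ← this, PowerSeries.coeff_map]; rfl

theorem emb_Bps (q : K) (m M : ℕ) :
    emb K (m + 1) (PowerSeries.coeff M (Bps q m)) = PowerSeries.coeff M (Bser q m) := by
  have : PowerSeries.map (emb K (m + 1)).toRingHom (Bps q m) = Bser q m := by
    rw [Bps, Bser, map_mul, map_emb_geo, emb_X_zero, map_prod,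
      ← Fin.prod_univ_eq_prod_range (fun j => PowerSeries.map
      (emb K (m + 1)).toRingHom ((1 - PowerSeries.C (MvPolynomial.C q * MvPolynomial.X (j + 1)) *
        PowerSeries.X) * geo (MvPolynomial.X (j + 1))))]
    congr 1
    refine prod_congr rfl fun j _ => ?_
    rw [map_mul, map_sub, map_one, map_mul, map_emb_C, PowerSeries.map_X, map_emb_geo, Ec_eq,
      emb_C_mul, emb_X, dif_pos (Nat.succ_lt_succ j.2)]
    rfl
  rw [← this, PowerSeries.coeff_map]; rfl

/-! ### the theorem -/

/-- the statement for one polynomial -/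
def PS (q t : K) (b : Fin (m + 1) → ℕ) (g : MvPolynomial ℕ K) : Prop :=
  ∃ p : Polynomial K, (∀ n, p.coeff n = Sn q m b (emb K (m + 1) g) n) ∧
    Phi q t (List.ofFn b) g = p.eval t

theorem PS_add (q t : K) (b : Fin (m + 1) → ℕ) (g g' : MvPolynomial ℕ K) (h : PS q t b g)
    (h' : PS q t b g') : PS q t b (g + g') := by
  obtain ⟨p, h1, h2⟩ := h
  obtain ⟨p', h1', h2'⟩ := h'
  refine ⟨p + p', fun n => ?_, ?_⟩
  · rw [Polynomial.coeff_add, h1, h1', map_add, Sn_add]
  · rw [map_add, h2, h2', Polynomial.eval_add]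

theorem PS_zero (q t : K) (b : Fin (m + 1) → ℕ) : PS q t b 0 :=
  ⟨0, fun n => by rw [map_zero, Sn_zero, Polynomial.coeff_zero], by simp⟩

theorem PS_sum {ι : Type*} (q t : K) (b : Fin (m + 1) → ℕ) (s : Finset ι)
    (g : ι → MvPolynomial ℕ K) (h : ∀ i ∈ s, PS q t b (g i)) : PS q t b (∑ i ∈ s, g i) := by
  classical
  induction s using Finset.induction_on with
  | empty => rw [sum_empty]; exact PS_zero q t b
  | insert a s ha ih =>
    rw [sum_insert ha]
    exact PS_add q t b _ _ (h a (mem_insert_self _ _)) (ih fun i hi => h i (mem_insert_of_mem hi))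

theorem PS_all (q t : K) (m : ℕ) (b : Fin (m + 1) → ℕ) (g : MvPolynomial ℕ K) : PS q t b g := by
  induction m generalizing g with
  | zero =>
    rw [← sum_cf g]
    refine PS_sum q t b _ _ fun k _ => ?_
    set h := cf k g
    refine ⟨Polynomial.C (if k = b 0 then MvPolynomial.coeff 0 h else 0), fun n => ?_, ?_⟩
    · have e1 : emb K 1 (MvPolynomial.X 0 ^ k * io h) = zz 0 ^ k * up (emb K 0 h) := by
        rw [map_mul, map_pow, emb_X_zero, emb_io]
      have e0 : emb K 0 h = algebraMap K (LR K 0) (MvPolynomial.coeff 0 h) := by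
        have : (emb K 0) = (Algebra.ofId K (LR K 0)).comp
            (MvPolynomial.aeval (fun _ : ℕ => (0 : K))) := by
          apply MvPolynomial.algHom_ext
          intro n
          rw [emb_X, dif_neg (by omega), AlgHom.comp_apply, MvPolynomial.aeval_X, map_zero]
        rw [this, AlgHom.comp_apply]
        change algebraMap K (LR K 0) _ = _
        congr 1
        exact MvPolynomial.aeval_zero' h |>.trans (by rw [MvPolynomial.constantCoeff_eq]; rfl)
      cases n with
      | succ n =>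
        rw [Polynomial.coeff_C_succ, Sn, Finset.Nat.antidiagonalTuple_zero_succ, sum_empty]
      | zero =>
        rw [Polynomial.coeff_C_zero, Sn, Finset.Nat.antidiagonalTuple_zero_zero, sum_singleton,
          e1, e0]
        have e2 : (mo (fun k => -(b k : ℚ)) : LR K 1) =
            mo (Fin.cons (-(b 0 : ℚ)) 0 : Fin 1 → ℚ) := by
          congr 1
          funext j
          have : j = 0 := Subsingleton.elim _ _
          subst this; simp
        have e3 : (mo (fun k => -(b k : ℚ)) * (zz 0 ^ k * up (algebraMap K (LR K 0)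
            (MvPolynomial.coeff 0 h))) * dn (mo (-(nexp ![]))) * up (Qe q 0 ![]) : LR K 1) =
            mo (Fin.cons ((k : ℚ) - (b 0 : ℚ)) 0 : Fin 1 → ℚ) *
              up (algebraMap K (LR K 0) (MvPolynomial.coeff 0 h)) := by
          have e4 : (mo (-(nexp (![] : Fin 0 → ℕ))) : LR K 0) = 1 := by
            rw [← mo_zero]; congr 1; exact Subsingleton.elim _ _
          rw [e2, zz_zero_pow, e4, map_one, Qe, map_one, mul_one, mul_one, ← mul_assoc,
            mo_cons_mul, neg_add_eq_sub]
        rw [e3, Lf_peel_nat]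
        have e5 : ∀ M, Hc q 0 M = if M = 0 then 1 else 0 := by
          intro M
          rw [Hc, Hser, univ_eq_empty, prod_empty, PowerSeries.coeff_one]
        by_cases hk : k = b 0
        · rw [if_pos hk, if_pos hk.ge, e5, if_pos (by omega), one_mul, Lf,
            Algebra.algebraMap_eq_smul_one, ← mo_zero, map_smul, lin_mo, smul_eq_mul, mul_one]
        · rw [if_neg hk]
          by_cases h2 : b 0 ≤ k
          · rw [if_pos h2, e5, if_neg (by omega), zero_mul, map_zero]
          · rw [if_neg h2]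
    · have hb : List.ofFn b = [b 0] := by simp
      rw [hb, Phi_cons, Polynomial.eval_C]
      by_cases h2 : b 0 ≤ k
      · rw [if_pos h2, Phi_nil, List.length_nil, Psi, PowerSeries.coeff_one]
        by_cases hk : k = b 0
        · rw [if_pos hk, if_pos (by omega), mul_one]
        · rw [if_neg hk, if_neg (by omega), mul_zero, MvPolynomial.coeff_zero]
      · rw [if_neg h2, if_neg (by omega)]
  | succ m ih =>
    rw [← sum_cf g]
    refine PS_sum q t b _ _ fun k _ => ?_
    set h := cf k g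
    have e1 : emb K (m + 2) (MvPolynomial.X 0 ^ k * io h) = zz 0 ^ k * up (emb K (m + 1) h) := by
      rw [map_mul, map_pow, emb_X_zero, emb_io]
    have hlist : List.ofFn b = b 0 :: List.ofFn (Fin.tail b) := by
      rw [List.ofFn_succ]; rfl
    by_cases hb : b 0 ≤ k
    · choose p hp1 hp2 using fun x : ℕ × ℕ => ih (Fin.tail b)
        (h * (PowerSeries.coeff x.2 (Qs q (m + 1)) * PowerSeries.coeff x.1 (Bps q m)))
      refine ⟨∑ x ∈ antidiagonal (k - b 0), Polynomial.X ^ x.1 * p x, fun n => ?_, ?_⟩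
      · rw [e1, Sn_succ, Polynomial.finsetSum_coeff]
        have h1 : ∀ x ∈ antidiagonal (k - b 0), (Polynomial.X ^ x.1 * p x).coeff n =
            if x.1 ≤ n then Sn q m (Fin.tail b) (emb K (m + 1) h * Hc q (m + 1)
              (k - (b 0 + x.1)) * PowerSeries.coeff x.1 (Bser q m)) (n - x.1) else 0 := by
          intro x hx
          rw [HasAntidiagonal.mem_antidiagonal] at hx
          rw [Polynomial.coeff_X_pow_mul']
          by_cases h2 : x.1 ≤ n
          · rw [if_pos h2, if_pos h2, hp1, map_mul, map_mul, emb_Qs, emb_Bps, ← mul_assoc]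
            congr 4
            omega
          · rw [if_neg h2, if_neg h2]
        rw [sum_congr rfl h1]
        rw [Finset.Nat.sum_antidiagonal_eq_sum_range_succ_mk,
          Finset.Nat.sum_antidiagonal_eq_sum_range_succ_mk]
        simp only
        -- both are sums over the `x ≤ k - b 0`, `x ≤ n`
        have h3 : ∑ x ∈ range (k - b 0).succ, (if x ≤ n then Sn q m (Fin.tail b)
              (emb K (m + 1) h * Hc q (m + 1)
              (k - (b 0 + x)) * PowerSeries.coeff x (Bser q m)) (n - x) else 0) =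
            ∑ x ∈ (range (k - b 0).succ).filter (fun x => x ≤ n), Sn q m (Fin.tail b)
              (emb K (m + 1) h * Hc q (m + 1)
              (k - (b 0 + x)) * PowerSeries.coeff x (Bser q m)) (n - x) := by
          rw [sum_filter]
        have h4 : ∑ x ∈ range n.succ, (if b 0 + x ≤ k then Sn q m (Fin.tail b)
              (emb K (m + 1) h * Hc q (m + 1)
              (k - (b 0 + x)) * PowerSeries.coeff x (Bser q m)) (n - x) else 0) =
            ∑ x ∈ (range n.succ).filter (fun x => b 0 + x ≤ k), Sn q m (Fin.tail b)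
              (emb K (m + 1) h * Hc q (m + 1)
              (k - (b 0 + x)) * PowerSeries.coeff x (Bser q m)) (n - x) := by
          rw [sum_filter]
        rw [h3, h4]
        refine sum_congr ?_ fun _ _ => rfl
        ext x
        simp only [mem_filter, mem_range]
        omega
      · rw [hlist, Phi_cons, if_pos hb, List.length_ofFn, coeff_Psi, mul_sum, map_sum,
          Polynomial.eval_finsetSum]
        refine sum_congr rfl fun x _ => ?_
        have e2 : h * (MvPolynomial.C (t ^ x.1) * (PowerSeries.coeff x.2 (Qs q (m + 1)) *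
            PowerSeries.coeff x.1 (Bps q m))) = (t ^ x.1) • (h * (PowerSeries.coeff x.2
              (Qs q (m + 1)) * PowerSeries.coeff x.1 (Bps q m))) := by
          rw [MvPolynomial.smul_eq_C_mul]
          ring
        rw [Polynomial.eval_mul, Polynomial.eval_pow, Polynomial.eval_X, ← hp2 x, e2, map_smul,
          smul_eq_mul]
    · refine ⟨0, fun n => ?_, ?_⟩
      · rw [Polynomial.coeff_zero, e1, Sn_succ]
        symm
        refine sum_eq_zero fun x _ => ?_
        rw [if_neg (by omega)]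
      · rw [hlist, Phi_cons, if_neg hb, Polynomial.eval_zero]

end Pool.Agent.Lib.MP_0e7911_co_h94
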