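import Pool.Agent.Lib.MP_0e7911_co_h38.BhtLem
import Pool.Agent.Lib.MP_0e7911_co_h94.Link

/-!
# The functional `Φ` of the product `∏ (1 - z_i x_α)` is a line sum
-/

set_option autoImplicit false

namespace Pool.Agent.Lib.MP_0e7911_co_h94

open Finset Pool.Agent.Lib.MP0e7911H38 Pool.Agent.Lib.MP0e7911H31
open Pool.Agent.Lib.MP_0e7911_co_full (blist Bht rk lineSum cstat cbef)

section hom

variable {K : Type*} [Field K]

theorem chain_isHomogeneous (q : K) {U m N n : ℕ} (v v' : Fin m → ℕ)
    (h : ∀ S : Fin N → Finset (Fin m),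
      (∀ i, v' i = v i + U * (univ.filter (fun β : Fin N => i ∈ S β)).card) →
        ∑ i, (univ.filter (fun β : Fin N => i ∈ S β)).card = n) :
    (MP_0e7911_co_full.chain q U N v v').IsHomogeneous n := by
  classical
  rw [MP_0e7911_co_full.chain]
  refine MvPolynomial.IsHomogeneous.sum _ _ _ fun S _ => ?_
  by_cases hS : ∀ i, v' i = v i + U * (univ.filter (fun β : Fin N => i ∈ S β)).card
  · rw [if_pos hS]
    have h1 : ∑ α : Fin N, (S α).card = n := by
      rw [← h S hS]
      have h2 : ∀ α : Fin N, (S α).card = ∑ i : Fin m, if i ∈ S α then 1 else 0 := by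
        intro α
        rw [← card_filter]
        congr 1
        ext i; simp
      rw [sum_congr rfl fun α _ => h2 α, sum_comm]
      refine sum_congr rfl fun i _ => ?_
      rw [card_filter]
    rw [← h1]
    refine MvPolynomial.IsHomogeneous.prod _ _ _ fun α _ => ?_
    have h3 : (MvPolynomial.X α ^ (S α).card : MvPolynomial (Fin N) K).IsHomogeneous
        (S α).card := by
      have := (MvPolynomial.isHomogeneous_X K α).pow (S α).card
      rwa [one_mul] at this
    have h4 := (MvPolynomial.isHomogeneous_C (Fin N)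
      (q ^ cstat U (cbef U v S α) (S α))).mul h3
    rwa [zero_add] at h4
  · rw [if_neg hS]
    exact MvPolynomial.isHomogeneous_zero _ _ _

theorem lineSum_isHomogeneous (q t : K) (m n N : ℕ) (hm : 0 < m) (B : ℕ → ℕ)
    (hB : ∀ x, n * x ≤ m * B x) : (lineSum q t m n N B).IsHomogeneous n := by
  rw [lineSum]
  refine MvPolynomial.IsHomogeneous.sum _ _ _ fun H _ => ?_
  by_cases hH : H 0 = 0 ∧ H (Fin.last m) = n ∧ ∀ x : Fin (m + 1), B x ≤ H x
  · rw [if_pos hH]
    obtain ⟨h0, h1, h2⟩ := hH
    have h4 : (MP_0e7911_co_full.chain q ((m + 1) * m) N (fun x : Fin m => rk m n x (H x.castSucc))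
          (fun x : Fin m => rk m n x (H x.succ))).IsHomogeneous n := by
      refine chain_isHomogeneous q _ _ fun S hS => ?_
      have key : ∀ i : Fin m, H i.succ = H i.castSucc +
          (univ.filter (fun β : Fin N => i ∈ S β)).card := by
        intro i
        have e1 := hS i
        simp only [rk] at e1
        have e2 : n * (i : ℕ) ≤ m * H i.castSucc :=
          (hB i).trans (Nat.mul_le_mul_left _ (by simpa using h2 i.castSucc))
        have e3 : n * (i : ℕ) ≤ m * H i.succ := by
          have := (hB (i + 1)).trans (Nat.mul_le_mul_left m (by simpa using h2 i.succ))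
          refine le_trans ?_ this
          exact Nat.mul_le_mul_left _ (Nat.le_succ _)
        set c := (univ.filter (fun β : Fin N => i ∈ S β)).card
        obtain ⟨u, hu⟩ := Nat.exists_eq_add_of_le e2
        obtain ⟨w, hw⟩ := Nat.exists_eq_add_of_le e3
        rw [hu, hw, Nat.add_sub_cancel_left, Nat.add_sub_cancel_left] at e1
        have e4 : (m + 1) * w = (m + 1) * (u + m * c) := by
          rw [mul_add]
          have : (m + 1) * m * c = (m + 1) * (m * c) := by ring
          omega
        have e5 : w = u + m * c := Nat.eq_of_mul_eq_mul_left (Nat.succ_pos m) e4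
        have e6 : m * H i.succ = m * (H i.castSucc + c) := by
          rw [hw, mul_add, hu, e5]; ring
        exact Nat.eq_of_mul_eq_mul_left hm e6
      have tel : ∀ k : ℕ, (hk : k ≤ m) → H 0 + ∑ i : Fin k,
          (univ.filter (fun β : Fin N => (Fin.castLE hk i) ∈ S β)).card =
          H ⟨k, by omega⟩ := by
        intro k
        induction k with
        | zero => intro _; simp
        | succ k ih =>
          intro hk
          rw [Fin.sum_univ_castSucc, ← add_assoc]
          have e1 := ih (by omega)
          have e2 := key ⟨k, by omega⟩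
          have e3 : ∀ i : Fin k, (Fin.castLE hk i.castSucc : Fin m) = Fin.castLE (by omega) i :=
            fun i => rfl
          simp only [e3]
          rw [e1]
          have e4 : (Fin.castLE hk (Fin.last k) : Fin m) = ⟨k, by omega⟩ := rfl
          rw [e4]
          exact e2.symm
      have := tel m le_rfl
      rw [h0, zero_add] at this
      rw [← h1]
      exact this
    have h5 := (MvPolynomial.isHomogeneous_C (Fin N)
      (t ^ (∑ x : Fin (m + 1), (H x - B x)))).mul h4
    rwa [zero_add] at h5
  · rw [if_neg hH]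
    exact MvPolynomial.isHomogeneous_zero _ _ _

theorem aeval_neg {L : Type*} [CommRing L] [Algebra K L] {σ : Type*} (x : σ → L) {n : ℕ}
    {f : MvPolynomial σ K} (hf : f.IsHomogeneous n) :
    MvPolynomial.aeval (fun i => - x i) f = (-1) ^ n * MvPolynomial.aeval x f := by
  rw [MvPolynomial.aeval_def, MvPolynomial.aeval_def, MvPolynomial.eval₂_eq, MvPolynomial.eval₂_eq,
    mul_sum]
  refine sum_congr rfl fun e he => ?_
  have h1 : ∑ i ∈ e.support, e i = n := by
    have := hf (MvPolynomial.mem_support_iff.1 he)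
    rw [← this, Finsupp.weight_apply, Finsupp.sum]
    exact sum_congr rfl fun i _ => by simp
  have h2 : ∏ i ∈ e.support, (- x i) ^ e i = (-1) ^ n * ∏ i ∈ e.support, x i ^ e i := by
    rw [← h1, ← prod_pow_eq_pow_sum, ← prod_mul_distrib]
    exact prod_congr rfl fun i _ => neg_pow _ _
  rw [h2]
  ring

end hom

variable {K : Type*} [Field K]

theorem Bht_mono' {a b i : ℕ} (ha : 0 < a) (hb : 0 < b) (x : ℕ) :
    Bht a b i x ≤ Bht a b i (x + 1) := Bht_mono ha hb

theorem blist_eq_ofFn (a b d i M : ℕ) (hM : a * d = M + 1) :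
    blist a b d i = List.ofFn (fun j : Fin (M + 1) => Bht a b i (j + 1) - Bht a b i j) := by
  rw [blist, hM]
  apply List.ext_getElem
  · rw [List.length_map, List.length_range, List.length_ofFn]
  · intro n h1 h2
    rw [List.getElem_map, List.getElem_range, List.getElem_ofFn]

theorem emb_Om (L : Type*) [Field L] (M N : ℕ) (x : Fin N → L) :
    emb L (M + 1) (∏ j ∈ range (M + 1), ∏ α : Fin N,
      (1 - MvPolynomial.C (x α) * MvPolynomial.X j)) = Om (M + 1) (List.ofFn fun α => - x α) := by
  rw [Om, List.map_ofFn, List.prod_ofFn, map_prod]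
  have h1 : ∀ j ∈ range (M + 1), emb L (M + 1) (∏ α : Fin N,
      (1 - MvPolynomial.C (x α) * MvPolynomial.X j)) = ∏ α : Fin N,
      (1 + (- x α) • (if h : j < M + 1 then zz ⟨j, h⟩ else 0 : LR L (M + 1))) := by
    intro j _
    rw [map_prod]
    refine prod_congr rfl fun α _ => ?_
    rw [map_sub, map_one, emb_C_mul, emb_X, neg_smul, sub_eq_add_neg]
  rw [prod_congr rfl h1, prod_comm]
  refine prod_congr rfl fun α _ => ?_
  rw [← Fin.prod_univ_eq_prod_range (fun j => (1 + (- x α) •
    (if h : j < M + 1 then zz ⟨j, h⟩ else 0 : LR L (M + 1))))]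
  refine prod_congr rfl fun j _ => ?_
  rw [dif_pos j.2]

/-- over a field extension -/
theorem line_Phi_field (L : Type*) [Field L] [Algebra K L] (q t : K) (a b d i N : ℕ) (ha : 0 < a)
    (hb : 0 < b) (hi : i < d) (x : Fin N → L) :
    Phi (algebraMap K L q) (algebraMap K L t) (blist a b d i)
      (∏ j ∈ range (a * d), ∏ α : Fin N, (1 - MvPolynomial.C (x α) * MvPolynomial.X j)) =
    (-1) ^ (b * d) * MvPolynomial.aeval x (lineSum q t (a * d) (b * d) N (Bht a b i)) := by
  have hd : 0 < d := by omega
  obtain ⟨M, hM⟩ : ∃ M, a * d = M + 1 := ⟨a * d - 1, by have := Nat.mul_pos ha hd; omega⟩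
  have hhom := lineSum_isHomogeneous q t (a * d) (b * d) N (Nat.mul_pos ha hd) (Bht a b i)
    (fun y => Bht_above ha)
  rw [← aeval_neg x hhom]
  obtain ⟨p, hp1, hp2⟩ := PS_all (algebraMap K L q) (algebraMap K L t) M
    (fun j : Fin (M + 1) => Bht a b i (j + 1) - Bht a b i j)
    (∏ j ∈ range (M + 1), ∏ α : Fin N, (1 - MvPolynomial.C (x α) * MvPolynomial.X j))
  rw [blist_eq_ofFn a b d i M hM, hM, hp2]
  set R := max (p.natDegree + 1) (M * (b * d) + 1) with hR
  rw [Polynomial.eval_eq_sum_range' (lt_of_lt_of_le (Nat.lt_succ_self _) (le_max_left _ _) :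
    p.natDegree < R)]
  have h1 := lineSum_Bht q t a b d i N M ha hi hM (fun α => - x α) R
    (lt_of_lt_of_le (Nat.lt_succ_self _) (le_max_right _ _))
  rw [hM] at h1
  rw [h1]
  refine sum_congr rfl fun k _ => ?_
  rw [hp1, mul_comm, Sn, emb_Om]
  congr 1
  refine sum_congr rfl fun e _ => ?_
  congr 5
  funext j
  have := Bht_mono' (i := i) ha hb (j : ℕ)
  push_cast [Nat.cast_sub this]
  ring

/-- the functional `Φ` of the product -/
theorem line_Phi (q t : K) (a b d i N : ℕ) (ha : 0 < a) (hb : 0 < b) (hi : i < d) :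
    Phi (MvPolynomial.C q : MvPolynomial (Fin N) K) (MvPolynomial.C t) (blist a b d i)
      (∏ j ∈ range (a * d), ∏ α : Fin N,
        (1 - MvPolynomial.C (MvPolynomial.X α) * MvPolynomial.X j)) =
    (-1) ^ (b * d) * lineSum q t (a * d) (b * d) N (Bht a b i) := by
  let k := MvPolynomial (Fin N) K
  let L := FractionRing k
  have hinj : Function.Injective (algebraMap k L) := IsFractionRing.injective k L
  apply hinj
  have h1 := line_Phi_field L q t a b d i N ha hb hi (fun α => algebraMap k L (MvPolynomial.X α))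
  rw [Phi_map, map_mul, map_pow, map_neg, map_one]
  have e1 : ∀ c : K, algebraMap k L (MvPolynomial.C c) = algebraMap K L c := fun c =>
    (IsScalarTower.algebraMap_apply K k L c).symm
  have e2 : MvPolynomial.aeval (fun α => algebraMap k L (MvPolynomial.X α))
      (lineSum q t (a * d) (b * d) N (Bht a b i)) =
      algebraMap k L (lineSum q t (a * d) (b * d) N (Bht a b i)) := by
    have : (MvPolynomial.aeval (fun α => algebraMap k L (MvPolynomial.X α)) : k →ₐ[K] L) =
        IsScalarTower.toAlgHom K k L := by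
      apply MvPolynomial.algHom_ext
      intro α
      rw [MvPolynomial.aeval_X]; rfl
    rw [this]; rfl
  rw [e2] at h1
  rw [e1, e1, ← h1]
  congr 1
  rw [map_prod]
  refine prod_congr rfl fun j _ => ?_
  rw [map_prod]
  refine prod_congr rfl fun α _ => ?_
  rw [map_sub, map_one, map_mul, MvPolynomial.map_C, MvPolynomial.map_X]

end Pool.Agent.Lib.MP_0e7911_co_h94
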