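import Mathlib

/-!
# Part (B) of MP_0e7911_co: definitions

Polynomials in the variables `z_0, z_1, ...` over a domain `R`, the Hecke operators `T_i`, the
nonsymmetric Hall-Littlewood polynomials `F v` (`v` a list of levels), the operators `U_j` and the
functional `Φ_b`.
-/

set_option autoImplicit false

namespace Pool.Agent.Lib.MP_0e7911_co_h94

open MvPolynomial Finset

variable {R : Type*} [CommRing R]

/-- the exchange of the variables `i` and `i + 1` -/
noncomputable def sw (i : ℕ) : MvPolynomial ℕ R →ₐ[R] MvPolynomial ℕ R :=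
  rename (Equiv.swap i (i + 1))

/-- `ι f (z_0, z_1, ...) = f (z_1, z_2, ...)` -/
noncomputable def io : MvPolynomial ℕ R →ₐ[R] MvPolynomial ℕ R := rename Nat.succ

/-- put `z_m = 0` and rename `z_{j+1}` to `z_j` for `j ≥ m` -/
noncomputable def del (m : ℕ) : MvPolynomial ℕ R →ₐ[R] MvPolynomial ℕ R :=
  aeval fun j => if j < m then X j else if j = m then 0 else X (j - 1)

theorem exists_dd (i : ℕ) (f : MvPolynomial ℕ R) :
    ∃ g, f - sw i f = (X i - X (i + 1)) * g := by
  induction f using MvPolynomial.induction_on with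
  | C a => exact ⟨0, by simp [sw]⟩
  | add p r hp hr =>
    obtain ⟨g, hg⟩ := hp
    obtain ⟨h, hh⟩ := hr
    exact ⟨g + h, by rw [map_add, mul_add, ← hg, ← hh]; ring⟩
  | mul_X p n hp =>
    obtain ⟨g, hg⟩ := hp
    have hX : ∃ c, (X n : MvPolynomial ℕ R) - sw i (X n) = (X i - X (i + 1)) * c := by
      unfold sw
      rw [rename_X]
      by_cases h1 : n = i
      · subst h1; exact ⟨1, by simp⟩
      · by_cases h2 : n = i + 1
        · subst h2; exact ⟨-1, by simp⟩
        · rw [Equiv.swap_apply_of_ne_of_ne h1 h2]; exact ⟨0, by simp⟩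
    obtain ⟨c, hc⟩ := hX
    refine ⟨g * X n + sw i p * c, ?_⟩
    rw [map_mul]
    calc p * X n - sw i p * sw i (X n) = (p - sw i p) * X n + sw i p * (X n - sw i (X n)) := by ring
      _ = _ := by rw [hg, hc]; ring

/-- the divided difference -/
noncomputable def dd (i : ℕ) (f : MvPolynomial ℕ R) : MvPolynomial ℕ R :=
  Classical.choose (exists_dd i f)

theorem dd_spec (i : ℕ) (f : MvPolynomial ℕ R) :
    f - sw i f = (X i - X (i + 1)) * dd i f :=
  Classical.choose_spec (exists_dd i f)

/-- the difference quotient `(h - h|_{z_0 = 0}) / z_0` -/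
noncomputable def U0 : Module.End R (MvPolynomial ℕ R) where
  toFun f := f.divMonomial (Finsupp.single 0 1)
  map_add' f g := add_divMonomial f g _
  map_smul' c f := by
    ext e
    simp [coeff_divMonomial]

variable [IsDomain R]

theorem X_sub_ne (i j : ℕ) (h : i ≠ j) : (X i - X j : MvPolynomial ℕ R) ≠ 0 := by
  rw [sub_ne_zero]
  exact fun h' => h (X_injective h')

/-- the Hecke operator `T_i f = s_i f + (q-1) z_{i+1} (f - s_i f)/(z_i - z_{i+1})` -/
noncomputable def T (q : R) (i : ℕ) : Module.End R (MvPolynomial ℕ R) where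
  toFun f := sw i f + C (q - 1) * X (i + 1) * dd i f
  map_add' f g := by
    have h := X_sub_ne (R := R) i (i + 1) (by omega)
    have e : dd i (f + g) = dd i f + dd i g := by
      apply mul_left_cancel₀ h
      rw [← dd_spec, mul_add, ← dd_spec, ← dd_spec, map_add]; ring
    rw [e, map_add]; ring
  map_smul' c f := by
    have h := X_sub_ne (R := R) i (i + 1) (by omega)
    have e : dd i (c • f) = c • dd i f := by
      apply mul_left_cancel₀ h
      rw [← dd_spec, mul_smul_comm, ← dd_spec, map_smul, smul_sub]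
    rw [e, map_smul, RingHom.id_apply, smul_add, mul_smul_comm]

/-- `T'_i = q T_i⁻¹ = T_i - (1 - q)` -/
noncomputable def T' (q : R) (i : ℕ) : Module.End R (MvPolynomial ℕ R) := T q i - (1 - q) • 1

/-- `T_{i-1} ⋯ T_1 T_0` -/
noncomputable def Td (q : R) : ℕ → Module.End R (MvPolynomial ℕ R)
  | 0 => 1
  | i + 1 => T q i * Td q i

/-- `∏_{i : K ∣ v_i} z_i` -/
noncomputable def mon (K : ℕ) : List ℕ → MvPolynomial ℕ R
  | [] => 1
  | a :: v => (if K ∣ a then X 0 else 1) * io (mon K v)

/-- all entries minus one -/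
def lp (v : List ℕ) : List ℕ := v.map Nat.pred

/-- the polynomial `F v` of a list `v` of levels, with unit `K` -/
noncomputable def F (K : ℕ) (q : R) (v : List ℕ) : MvPolynomial ℕ R :=
  if hv : v = [] then 1
  else if h : 0 ∈ v then Td q (v.idxOf 0) (io (F K q (v.eraseIdx (v.idxOf 0))))
  else mon K v * F K q (lp v)
termination_by v.length + v.sum
decreasing_by
  · have h1 : v.idxOf 0 < v.length := List.idxOf_lt_length_iff.2 h
    have h2 := List.length_eraseIdx_add_one h1
    have h3 : (v.eraseIdx (v.idxOf 0)).sum ≤ v.sum := by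
      apply List.Sublist.sum_le_sum (List.eraseIdx_sublist _ _)
      intro x _; exact Nat.zero_le x
    omega
  · have key : ∀ w : List ℕ, w ≠ [] → (0 ∉ w) → (lp w).length + (lp w).sum < w.length + w.sum := by
      intro w hw h0
      have h1 := List.sum_lt_sum_of_ne_nil hw Nat.pred (fun x => x) (by
        intro x hx
        have : x ≠ 0 := fun h' => h0 (h' ▸ hx)
        exact Nat.pred_lt this)
      rw [List.map_id'] at h1
      unfold lp
      rw [List.length_map]
      omega
    exact key v hv h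

/-- the operators `U_0 = (h - h|_{z_0=0})/z_0`, `U_{j+1} = q T_j⁻¹ U_j T_j⁻¹ = q⁻¹ T'_j U_j T'_j` -/
noncomputable def U (q qi : R) : ℕ → Module.End R (MvPolynomial ℕ R)
  | 0 => U0
  | j + 1 => qi • (T' q j * U q qi j * T' q j)

/-- `U_j^{b_0} U_{j+1}^{b_1} ⋯` -/
noncomputable def UU (q qi : R) : ℕ → List ℕ → Module.End R (MvPolynomial ℕ R)
  | _, [] => 1
  | j, b :: bs => U q qi j ^ b * UU q qi (j + 1) bs

omit [IsDomain R] in
/-- the coefficient of `z_0^k` of a polynomial, as polynomial in the other variables (renamed) -/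
noncomputable def cf (k : ℕ) : MvPolynomial ℕ R →ₗ[R] MvPolynomial ℕ R :=
  (del 0).toLinearMap ∘ₗ (U0 ^ k)

/-- `1/(1 - a u)` -/
noncomputable def geo (a : MvPolynomial ℕ R) : PowerSeries (MvPolynomial ℕ R) :=
  PowerSeries.mk fun n => a ^ n

/-- `Q(u) = ∏_{j < l} (1 - z_j u)/(1 - q z_j u)` -/
noncomputable def Qs (q : R) (l : ℕ) : PowerSeries (MvPolynomial ℕ R) :=
  ∏ j ∈ range l, (1 - PowerSeries.C (X j) * PowerSeries.X) * geo (C q * X j)

/-- `Q(u)⁻¹ = ∏_{j < l} (1 - q z_j u)/(1 - z_j u)` -/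
noncomputable def Qsi (q : R) (l : ℕ) : PowerSeries (MvPolynomial ℕ R) :=
  ∏ j ∈ range l, (1 - PowerSeries.C (C q * X j) * PowerSeries.X) * geo (X j)

/-- `Ψ_l(u) = ∏_{j<l} (1 - z_j u)(1 - qt z_j u)/((1 - q z_j u)(1 - t z_j u)) / (1 - qt z_0 u)` for `l > 0`, `Ψ_0 = 1` -/
noncomputable def Psi (q t : R) : ℕ → PowerSeries (MvPolynomial ℕ R)
  | 0 => 1
  | l + 1 => (∏ j ∈ range (l + 1), (1 - PowerSeries.C (X j) * PowerSeries.X) *
      (1 - PowerSeries.C (C (q * t) * X j) * PowerSeries.X) * geo (C q * X j) * geo (C t * X j)) *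
      geo (C (q * t) * X 0)

omit [IsDomain R] in
theorem coeff_U0_pow (k : ℕ) (g : MvPolynomial ℕ R) (e : ℕ →₀ ℕ) :
    coeff e ((U0 ^ k) g) = coeff (Finsupp.single 0 k + e) g := by
  induction k generalizing e with
  | zero => simp
  | succ k ih =>
    rw [pow_succ', Module.End.mul_apply]
    change coeff e (((U0 ^ k) g).divMonomial (Finsupp.single 0 1)) = _
    rw [coeff_divMonomial, ih, ← add_assoc, ← Finsupp.single_add]

omit [IsDomain R] in
theorem cf_eq_zero (k : ℕ) (g : MvPolynomial ℕ R) (h : cf k g ≠ 0) : k ∈ range (g.totalDegree + 1) := by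
  by_contra hk
  rw [mem_range, not_lt] at hk
  apply h
  have : (U0 ^ k) g = 0 := by
    ext e
    rw [coeff_U0_pow, coeff_zero]
    apply coeff_eq_zero_of_totalDegree_lt
    have h1 : (Finsupp.single 0 k + e : ℕ →₀ ℕ).degree = k + e.degree := by
      rw [map_add, Finsupp.degree_single]
    rw [← Finsupp.degree_apply, h1]
    omega
  rw [cf, LinearMap.comp_apply, this, map_zero]

/-- a polynomial as a finitely supported family of its coefficients in `z_0` -/
noncomputable def toF : MvPolynomial ℕ R →ₗ[R] (ℕ →₀ MvPolynomial ℕ R) where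
  toFun g := Finsupp.onFinset (range (g.totalDegree + 1)) (fun k => cf k g)
    (fun k h => cf_eq_zero k g h)
  map_add' f g := by ext1 k; simp
  map_smul' c f := by ext1 k; simp

/-- the functional `Φ_b`: coefficient of `z^b` in
`g(z) ∏_{i<j} w(z_j/z_i) / ∏_i (1 - qt z_{i+1}/z_i)`, `w(x) = (1-x)(1-qtx)/((1-qx)(1-tx))` -/
noncomputable def Phi (q t : R) : List ℕ → (MvPolynomial ℕ R →ₗ[R] R)
  | [] => lcoeff R 0
  | b :: bs => (Finsupp.lsum R (fun k => if b ≤ k then
      Phi q t bs ∘ₗ LinearMap.mulRight R (PowerSeries.coeff (k - b) (Psi q t bs.length)) else 0)) ∘ₗ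
      toF

/-- the trace of degree `n` -/
noncomputable def tr (q qi : R) (b : List ℕ) (n : ℕ) (g : MvPolynomial ℕ R) : R :=
  ∑ c ∈ finsuppAntidiag (range (b.length - 1)) n,
    coeff c (del (b.length - 1) (UU q qi 0 b (g * io (monomial c 1))))

/-- the exponent of `q` in the Pieri rule -/
def stat (K : ℕ) {l : ℕ} (v : Fin l → ℕ) (S : Finset (Fin l)) : ℕ :=
  #{p : Fin l × Fin l | p.1 < p.2 ∧ p.1 ∉ S ∧ p.2 ∈ S ∧ v p.2 < v p.1 ∧ v p.1 < v p.2 + K}

/-- sum over the chains from `v` to `w` (one step for every `x` of the list) -/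
def chain (K : ℕ) (q : R) {l : ℕ} : List R → (Fin l → ℕ) → (Fin l → ℕ) → R
  | [], v, w => if v = w then 1 else 0
  | x :: xs, v, w => ∑ S : Finset (Fin l),
      x ^ #S * q ^ stat K v S * chain K q xs (fun i => v i + if i ∈ S then K else 0) w

end Pool.Agent.Lib.MP_0e7911_co_h94
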