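import Pool.Agent.Lib.MP_0e7911_co_h94.Defs

/-!
# Hecke operators on polynomials
-/

set_option autoImplicit false

namespace Pool.Agent.Lib.MP_0e7911_co_h94

open MvPolynomial Finset

variable {R : Type*} [CommRing R]

/-! ### exchange of variables -/

theorem sw_X (i n : ℕ) : sw i (X n : MvPolynomial ℕ R) = X (Equiv.swap i (i + 1) n) := by
  unfold sw; rw [rename_X]

@[simp] theorem sw_X_left (i : ℕ) : sw i (X i : MvPolynomial ℕ R) = X (i + 1) := by
  rw [sw_X, Equiv.swap_apply_left]

@[simp] theorem sw_X_right (i : ℕ) : sw i (X (i + 1) : MvPolynomial ℕ R) = X i := by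
  rw [sw_X, Equiv.swap_apply_right]

theorem sw_X_of_ne (i n : ℕ) (h1 : n ≠ i) (h2 : n ≠ i + 1) :
    sw i (X n : MvPolynomial ℕ R) = X n := by
  rw [sw_X, Equiv.swap_apply_of_ne_of_ne h1 h2]

@[simp] theorem sw_C (i : ℕ) (a : R) : sw i (C a) = C a := by
  unfold sw; rw [rename_C]

@[simp] theorem sw_sw (i : ℕ) (f : MvPolynomial ℕ R) : sw i (sw i f) = f := by
  unfold sw
  rw [rename_rename]
  have : (⇑(Equiv.swap i (i + 1)) ∘ ⇑(Equiv.swap i (i + 1))) = id := by
    funext x; simp
  rw [this, rename_id]; rfl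

theorem algHom_eq_of_X {f g : MvPolynomial ℕ R →ₐ[R] MvPolynomial ℕ R}
    (h : ∀ n, f (X n) = g (X n)) (p : MvPolynomial ℕ R) : f p = g p := by
  have : f = g := MvPolynomial.algHom_ext h
  rw [this]

theorem sw_comm (i j : ℕ) (h : i + 1 < j) (f : MvPolynomial ℕ R) :
    sw i (sw j f) = sw j (sw i f) := by
  refine algHom_eq_of_X (f := (sw i).comp (sw j)) (g := (sw j).comp (sw i)) (fun n => ?_) f
  simp only [AlgHom.comp_apply, sw_X]
  congr 1
  simp only [Equiv.swap_apply_def]
  split_ifs <;> omega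

theorem sw_braid (i : ℕ) (f : MvPolynomial ℕ R) :
    sw i (sw (i + 1) (sw i f)) = sw (i + 1) (sw i (sw (i + 1) f)) := by
  refine algHom_eq_of_X (f := (sw i).comp ((sw (i + 1)).comp (sw i)))
    (g := (sw (i + 1)).comp ((sw i).comp (sw (i + 1)))) (fun n => ?_) f
  simp only [AlgHom.comp_apply, sw_X]
  congr 1
  simp only [Equiv.swap_apply_def]
  split_ifs <;> omega

/-! ### the shift and the deletion -/

@[simp] theorem io_X (n : ℕ) : io (X n : MvPolynomial ℕ R) = X (n + 1) := by
  unfold io; rw [rename_X]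

@[simp] theorem io_C (a : R) : io (C a : MvPolynomial ℕ R) = C a := by
  unfold io; rw [rename_C]

theorem io_injective : Function.Injective (io : MvPolynomial ℕ R →ₐ[R] MvPolynomial ℕ R) := by
  unfold io
  exact rename_injective _ Nat.succ_injective

theorem sw_io (i : ℕ) (f : MvPolynomial ℕ R) : sw (i + 1) (io f) = io (sw i f) := by
  refine algHom_eq_of_X (f := (sw (i + 1)).comp io) (g := io.comp (sw i)) (fun n => ?_) f
  simp only [AlgHom.comp_apply, io_X]
  by_cases h1 : n = i
  · subst h1; simp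
  by_cases h2 : n = i + 1
  · subst h2; simp
  · rw [sw_X_of_ne i n h1 h2, sw_X_of_ne (i + 1) (n + 1) (by omega) (by omega), io_X]

theorem sw_io_io (f : MvPolynomial ℕ R) : sw 0 (io (io f)) = io (io f) := by
  refine algHom_eq_of_X (f := (sw 0).comp (io.comp io)) (g := io.comp io) (fun n => ?_) f
  simp only [AlgHom.comp_apply, io_X]
  exact sw_X_of_ne 0 _ (by omega) (by omega)

theorem del_X (m n : ℕ) : del m (X n : MvPolynomial ℕ R) =
    if n < m then X n else if n = m then 0 else X (n - 1) := by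
  unfold del; rw [aeval_X]

@[simp] theorem del_C (m : ℕ) (a : R) : del m (C a : MvPolynomial ℕ R) = C a := by
  unfold del; rw [aeval_C]; rfl

theorem del_io (m : ℕ) (f : MvPolynomial ℕ R) : del (m + 1) (io f) = io (del m f) := by
  refine algHom_eq_of_X (f := (del (m + 1)).comp io) (g := io.comp (del m)) (fun n => ?_) f
  simp only [AlgHom.comp_apply, io_X, del_X]
  by_cases h1 : n < m
  · rw [if_pos h1, if_pos (by omega), io_X]
  by_cases h2 : n = m
  · subst h2; simp
  · rw [if_neg h1, if_neg h2, if_neg (by omega), if_neg (by omega), io_X]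
    congr 1; omega

theorem del_zero_io (f : MvPolynomial ℕ R) : del 0 (io f) = f := by
  refine algHom_eq_of_X (f := (del 0).comp io) (g := AlgHom.id R _) (fun n => ?_) f
  simp [del_X]

theorem del_sw (i : ℕ) (f : MvPolynomial ℕ R) : del (i + 1) (sw i f) = del i f := by
  refine algHom_eq_of_X (f := (del (i + 1)).comp (sw i)) (g := del i) (fun n => ?_) f
  simp only [AlgHom.comp_apply]
  by_cases h1 : n = i
  · subst h1; rw [sw_X_left, del_X, del_X]; simp
  by_cases h2 : n = i + 1
  · subst h2; rw [sw_X_right, del_X, del_X]; simp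
  · rw [sw_X_of_ne i n h1 h2, del_X, del_X]
    by_cases h3 : n < i
    · rw [if_pos h3, if_pos (by omega)]
    · rw [if_neg h3, if_neg h1, if_neg (by omega), if_neg (by omega)]

theorem del_sw_far (i m : ℕ) (h : i + 1 < m) (f : MvPolynomial ℕ R) :
    del m (sw i f) = sw i (del m f) := by
  refine algHom_eq_of_X (f := (del m).comp (sw i)) (g := (sw i).comp (del m)) (fun n => ?_) f
  simp only [AlgHom.comp_apply]
  by_cases h1 : n = i
  · subst h1; rw [sw_X_left, del_X, del_X, if_pos h, if_pos (by omega), sw_X_left]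
  by_cases h2 : n = i + 1
  · subst h2; rw [sw_X_right, del_X, del_X, if_pos (by omega), if_pos h, sw_X_right]
  · rw [sw_X_of_ne i n h1 h2, del_X]
    by_cases h3 : n < m
    · rw [if_pos h3, sw_X_of_ne i n h1 h2]
    · rw [if_neg h3]
      by_cases h4 : n = m
      · rw [if_pos h4, map_zero]
      · rw [if_neg h4, sw_X_of_ne i (n - 1) (by omega) (by omega)]

theorem X_mul_U0 (f : MvPolynomial ℕ R) : X 0 * U0 f + io (del 0 f) = f := by
  have h1 : X 0 * U0 f + f.modMonomial (Finsupp.single 0 1) = f := by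
    have := divMonomial_add_modMonomial_single f 0
    exact this
  have h2 : ∀ g : MvPolynomial ℕ R, io (del 0 (X 0 * g)) = 0 := by
    intro g; rw [map_mul, del_X]; simp
  have h3 : io (del 0 (f.modMonomial (Finsupp.single 0 1))) = f.modMonomial (Finsupp.single 0 1) := by
    -- no monomial contains `X 0`
    set g := f.modMonomial (Finsupp.single 0 1) with hg
    rw [g.as_sum, map_sum, map_sum]
    refine Finset.sum_congr rfl fun e he => ?_
    have he0 : e 0 = 0 := by
      by_contra h0
      rw [mem_support_iff] at he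
      apply he
      rw [hg, coeff_modMonomial_of_le]
      rw [Finsupp.single_le_iff]
      omega
    rw [monomial_eq, map_mul, map_mul, del_C, io_C]
    congr 1
    rw [Finsupp.prod, map_prod, map_prod]
    refine Finset.prod_congr rfl fun n hn => ?_
    have hn0 : n ≠ 0 := by
      rintro rfl
      rw [Finsupp.mem_support_iff] at hn
      exact hn he0
    rw [map_pow, map_pow, del_X, if_neg (by omega), if_neg hn0, io_X]
    congr 2; omega
  calc X 0 * U0 f + io (del 0 f) = X 0 * U0 f +
        io (del 0 (X 0 * U0 f + f.modMonomial (Finsupp.single 0 1))) := by rw [h1]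
    _ = _ := by rw [map_add, map_add, h2, zero_add, h3, h1]

theorem U0_X_mul (f : MvPolynomial ℕ R) : U0 (X 0 * f) = f := X_mul_divMonomial 0 f

theorem U0_io (f : MvPolynomial ℕ R) : U0 (io f) = 0 := by
  have h := X_mul_U0 (io f)
  rw [del_zero_io] at h
  have h1 : X 0 * U0 (io f) = 0 := by
    have := congrArg (fun x => x - io f) h
    simpa using this
  have := U0_X_mul (U0 (io f))
  rw [h1, map_zero] at this
  exact this.symm

variable [IsDomain R]

/-! ### the operators `T_i` -/

theorem T_char (q : R) (i : ℕ) (f : MvPolynomial ℕ R) :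
    (X i - X (i + 1)) * T q i f = C (q - 1) * X (i + 1) * f + (X i - C q * X (i + 1)) * sw i f := by
  have h := dd_spec i f
  change (X i - X (i + 1)) * (sw i f + C (q - 1) * X (i + 1) * dd i f) = _
  calc _ = (X i - X (i + 1)) * sw i f + C (q - 1) * X (i + 1) * ((X i - X (i + 1)) * dd i f) := by
        ring
    _ = _ := by rw [← h, C_sub, C_1]; ring

/-- characterisation of `T q i f` -/
theorem T_eq_iff (q : R) (i : ℕ) (f g : MvPolynomial ℕ R) :
    T q i f = g ↔
      (X i - X (i + 1)) * g = C (q - 1) * X (i + 1) * f + (X i - C q * X (i + 1)) * sw i f := by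
  constructor
  · rintro rfl; exact T_char q i f
  · intro h
    apply mul_left_cancel₀ (X_sub_ne (R := R) i (i + 1) (by omega))
    rw [T_char, h]

theorem T_smul (q : R) (i : ℕ) (c f : MvPolynomial ℕ R) (hc : sw i c = c) :
    T q i (c * f) = c * T q i f := by
  rw [T_eq_iff, map_mul, hc]
  linear_combination c * T_char q i f

theorem T_inv (q : R) (i : ℕ) (f : MvPolynomial ℕ R) (hf : sw i f = f) : T q i f = f := by
  rw [T_eq_iff, hf, C_sub, C_1]; ring

/-- the swapped version of `T_char` -/
theorem sw_T (q : R) (i : ℕ) (f : MvPolynomial ℕ R) :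
    (X (i + 1) - X i) * sw i (T q i f) =
      C (q - 1) * X i * sw i f + (X (i + 1) - C q * X i) * f := by
  have := congrArg (sw i) (T_char q i f)
  simpa using this

theorem T_T (q : R) (i : ℕ) (f : MvPolynomial ℕ R) :
    T q i (T q i f) = (1 - q) • T q i f + q • f := by
  rw [T_eq_iff]
  apply mul_left_cancel₀ (X_sub_ne (R := R) i (i + 1) (by omega))
  have h1 := T_char q i f
  have h2 := sw_T q i f
  rw [smul_eq_C_mul, smul_eq_C_mul]
  simp only [C_sub, C_1] at h1 h2 ⊢
  linear_combination ((1 - C q) * (X i - X (i + 1)) - (C q - 1) * X (i + 1)) * h1 +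
    (X i - C q * X (i + 1)) * h2

theorem T'_apply (q : R) (i : ℕ) (f : MvPolynomial ℕ R) :
    T' q i f = T q i f - (1 - q) • f := rfl

theorem T'_T (q : R) (i : ℕ) (f : MvPolynomial ℕ R) : T' q i (T q i f) = q • f := by
  rw [T'_apply, T_T]; abel

theorem T_T' (q : R) (i : ℕ) (f : MvPolynomial ℕ R) : T q i (T' q i f) = q • f := by
  rw [T'_apply, map_sub, map_smul, T_T]; abel

theorem T_X (q : R) (i : ℕ) (f : MvPolynomial ℕ R) :
    T q i (X i * T q i f) = q • (X (i + 1) * f) := by
  rw [T_eq_iff]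
  apply mul_left_cancel₀ (X_sub_ne (R := R) i (i + 1) (by omega))
  have h1 := T_char q i f
  have h2 := sw_T q i f
  rw [map_mul, sw_X_left, smul_eq_C_mul]
  simp only [C_sub, C_1] at h1 h2 ⊢
  linear_combination (-(C q - 1) * X (i + 1) * X i) * h1 +
    (X i - C q * X (i + 1)) * X (i + 1) * h2

theorem sw_T_far (q : R) (i j : ℕ) (h : i + 1 < j ∨ j + 1 < i) (f : MvPolynomial ℕ R) :
    sw j (T q i f) = T q i (sw j f) := by
  symm
  rw [T_eq_iff]
  have h1 := congrArg (sw j) (T_char q i f)
  have e1 : sw j (X i : MvPolynomial ℕ R) = X i := sw_X_of_ne j i (by omega) (by omega)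
  have e2 : sw j (X (i + 1) : MvPolynomial ℕ R) = X (i + 1) :=
    sw_X_of_ne j (i + 1) (by omega) (by omega)
  have e3 : sw j (sw i f) = sw i (sw j f) := by
    rcases h with h | h
    · exact (sw_comm i j h f).symm
    · exact sw_comm j i h f
  simp only [map_mul, map_sub, map_add, e1, e2, e3, sw_C] at h1
  simpa using h1

theorem T_comm (q : R) (i j : ℕ) (h : i + 1 < j) (f : MvPolynomial ℕ R) :
    T q i (T q j f) = T q j (T q i f) := by
  rw [T_eq_iff]
  apply mul_left_cancel₀ (X_sub_ne (R := R) j (j + 1) (by omega))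
  have h1 := T_char q j f
  have h2 := T_char q i f
  have h3 := T_char q j (T q i f)
  have h4 := T_char q j (sw i f)
  rw [sw_T_far q i j (Or.inl h)] at h3
  rw [sw_T_far q j i (Or.inr h)]
  have h5 := T_char q i (sw j f)
  have e : sw j (sw i f) = sw i (sw j f) := (sw_comm i j h f).symm
  rw [e] at h4
  linear_combination (X i - X (i + 1)) * h3 + C (q - 1) * X (j + 1) * h2 +
    (X j - C q * X (j + 1)) * h5 - C (q - 1) * X (i + 1) * h1 - (X i - C q * X (i + 1)) * h4

theorem T_io (q : R) (i : ℕ) (f : MvPolynomial ℕ R) : T q (i + 1) (io f) = io (T q i f) := by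
  rw [T_eq_iff, sw_io]
  have := congrArg io (T_char q i f)
  simpa using this

theorem T_io_io (q : R) (f : MvPolynomial ℕ R) : T q 0 (io (io f)) = io (io f) :=
  T_inv q 0 _ (sw_io_io f)

theorem del_T (q : R) (i : ℕ) (f : MvPolynomial ℕ R) : del (i + 1) (T q i f) = del i f := by
  have h := congrArg (del (i + 1)) (T_char q i f)
  simp only [map_mul, map_sub, map_add, del_X, del_sw] at h
  simp only [Nat.lt_succ_self, if_true, lt_irrefl, if_false, sub_zero, mul_zero, zero_mul,
    zero_add] at h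
  exact mul_left_cancel₀ (X_ne_zero i) h

theorem del_T_far (q : R) (i m : ℕ) (h : i + 1 < m) (f : MvPolynomial ℕ R) :
    del m (T q i f) = T q i (del m f) := by
  symm
  rw [T_eq_iff]
  have h1 := congrArg (del m) (T_char q i f)
  simp only [map_mul, map_sub, map_add, del_X, del_sw_far i m h, if_pos h,
    if_pos (show i < m by omega), del_C] at h1
  simpa using h1

/-- the braid relation -/
theorem braid (q : R) (i : ℕ) (f : MvPolynomial ℕ R) :
    T q i (T q (i + 1) (T q i f)) = T q (i + 1) (T q i (T q (i + 1) f)) := by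
  have n1 := X_sub_ne (R := R) i (i + 1) (by omega)
  have n2 := X_sub_ne (R := R) (i + 1) (i + 1 + 1) (by omega)
  have n3 := X_sub_ne (R := R) i (i + 1 + 1) (by omega)
  have ez : sw i (X (i + 1 + 1) : MvPolynomial ℕ R) = X (i + 1 + 1) :=
    sw_X_of_ne i _ (by omega) (by omega)
  have ex : sw (i + 1) (X i : MvPolynomial ℕ R) = X i := sw_X_of_ne (i + 1) _ (by omega) (by omega)
  -- left side
  have a1 := T_char q i f
  have a2 := T_char q (i + 1) (T q i f)
  have a3 := T_char q i (T q (i + 1) (T q i f))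
  have a4 := congrArg (sw (i + 1)) a1
  have a5 := congrArg (sw i) a2
  have a6 := congrArg (sw i) a4
  have a7 := sw_T q i f
  -- right side
  have b1 := T_char q (i + 1) f
  have b2 := T_char q i (T q (i + 1) f)
  have b3 := T_char q (i + 1) (T q i (T q (i + 1) f))
  have b4 := congrArg (sw i) b1
  have b5 := congrArg (sw (i + 1)) b2
  have b6 := congrArg (sw (i + 1)) b4
  have b7 := sw_T q (i + 1) f
  have hb := sw_braid i f
  simp only [map_mul, map_add, map_sub, sw_X_left, sw_X_right, ez, ex, sw_C] at a4 a5 a6 b4 b5 b6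
  rw [hb] at a6
  have D : (X i - X (i + 1) : MvPolynomial ℕ R) ^ 2 * (X (i + 1) - X (i + 1 + 1)) ^ 2 *
      (X i - X (i + 1 + 1)) ≠ 0 := mul_ne_zero (mul_ne_zero (pow_ne_zero _ n1) (pow_ne_zero _ n2)) n3
  apply mul_left_cancel₀ D
  simp only [C_sub, C_1] at a1 a2 a3 a4 a5 a6 a7 b1 b2 b3 b4 b5 b6 b7
  generalize (X i : MvPolynomial ℕ R) = x at *
  generalize (X (i + 1) : MvPolynomial ℕ R) = y at *
  generalize (X (i + 1 + 1) : MvPolynomial ℕ R) = z at *
  generalize (C q : MvPolynomial ℕ R) = Q at *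
  linear_combination (y - z) * ((x - y) * (y - z) * (x - z) * a3 +
      (Q - 1) * y * (x - y) * (x - z) * a2 + (x - Q * y) * (x - y) * (y - z) * a5 +
      (Q - 1) ^ 2 * y * z * (x - z) * a1 + (Q - 1) * y * (y - Q * z) * (x - y) * a4 -
      (x - Q * y) * (y - z) * (Q - 1) * z * a7 + (x - Q * y) * (x - Q * z) * (x - y) * a6) -
    (x - y) * ((x - y) * (y - z) * (x - z) * b3 + (Q - 1) * z * (y - z) * (x - z) * b2 +
      (y - Q * z) * (y - z) * (x - y) * b5 + (Q - 1) ^ 2 * y * z * (x - z) * b1 +
      (Q - 1) * z * (x - Q * y) * (y - z) * b4 - (y - Q * z) * (x - y) * (Q - 1) * z * b7 +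
      (y - Q * z) * (x - Q * z) * (y - z) * b6)

end Pool.Agent.Lib.MP_0e7911_co_h94
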